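import Mathlib
import Pool.Agent.H.MP_2869d0_nt.A
import Pool.Agent.H.MP_cbe697_nt.Main
import Pool.Agent.Results.MP_6f4751_nt.Q1

namespace Pool.Agent.Results.MP_c45f9b_nt.Yes

open Nat Finset Pool.Agent.H.MP_2869d0_nt
open MP_6f4751_nt.Q1 (ψ ψ_N T_N T_ext)

/-- the Delannoy polynomial `D_n(x)` -/
def D (n : ℕ) (x : ℤ) : ℤ := ∑ k ∈ range (n + 1), (n.choose k : ℤ) * ((n + k).choose k : ℤ) * x ^ k

/-- `S_p(x)` -/
def S (p : ℕ) (x : ℤ) : ℤ := ∑ k ∈ range p, (-1) ^ k * (2 * (k : ℤ) + 1) * D k x ^ 4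

/-- `T_p(x)` -/
def T (p : ℕ) (x : ℤ) : ℤ := ∑ k ∈ range ((p - 1) / 2 + 1),
  (-1) ^ k * ((2 * k).choose k : ℤ) ^ 2 * (x ^ 2 + x) ^ k * (2 * x + 1) ^ (2 * k)

def P (n l : ℕ) : ℕ := n.choose l * (n + l).choose l
def c (i j l : ℕ) : ℕ := (i + j).choose l * l.choose i * l.choose j

lemma ψ_P (n k : ℕ) : ψ n k = P n k := by
  have := Nat.choose_mul (n := n + k) (k := 2 * k) (s := k) (by omega)
  rw [show n + k - k = n by omega, show 2 * k - k = k by omega] at this
  rw [ψ, ← Nat.cast_mul, this, P, mul_comm]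

lemma c_iv (i j l : ℕ) : (c i j l : ℚ) = (i + j)! * l ! * iv ((i : ℤ) + j - l) * iv i * iv j *
    iv ((l : ℤ) - i) * iv ((l : ℤ) - j) := by
  unfold c
  push_cast
  rw [choose_iv, choose_iv, choose_iv, iv_nat l]
  push_cast
  field_simp

lemma c_rec (i j l : ℕ) : (j + 1 : ℚ) ^ 2 * c i (j + 1) l =
    l * (l + 1) * c i j l + l ^ 2 * c i j (l - 1) - j * (j + 1) * c i j l := by
  cases l with
  | zero => cases j <;> simp [c]
  | succ l =>
    have a1 := iv_succ ((i : ℤ) + j - (l + 1))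
    have a2 := iv_succ ((l : ℤ) - i)
    have a3 := iv_succ ((l : ℤ) - j)
    rw [Nat.add_sub_cancel, c_iv, c_iv, c_iv, ← add_assoc, factorial_succ, factorial_succ l,
      iv_succ j]
    push_cast at a1 a2 a3 ⊢
    rw [show (i : ℤ) + j - (l + 1) + 1 = i + j - l by ring] at a1
    rw [show (i : ℤ) + (j + 1) - (l + 1) = i + j - l by ring,
      show (l : ℤ) + 1 - (j + 1) = l - j by ring, show (l : ℤ) + 1 - i = l - i + 1 by ring,
      show (l : ℤ) + 1 - j = l - j + 1 by ring, a1, a2, a3]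
    ring

lemma linQ (n i j : ℕ) : ψ n i * ψ n j = MP_6f4751_nt.Q1.T (fun l => c i j l) n := by
  induction j with
  | zero =>
    rw [← T_ext _ n (n + i + 1) (by omega), sum_eq_single i]
    · simp [c, ψ]
    · intro l _ hl
      rcases lt_or_gt_of_ne hl with h | h <;> simp [c, Nat.choose_eq_zero_of_lt h]
    · intro h; exact absurd (mem_range.2 (by omega)) h
  | succ j ih =>
    have h := T_N (fun l => c i j l) n
    have e : (j + 1 : ℚ) ^ 2 * MP_6f4751_nt.Q1.T (fun l => c i (j + 1) l) n =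
        MP_6f4751_nt.Q1.T (fun l => l * (l + 1) * c i j l + l ^ 2 * c i j (l - 1)) n -
          j * (j + 1) * MP_6f4751_nt.Q1.T (fun l => c i j l) n := by
      simp only [MP_6f4751_nt.Q1.T, mul_sum, ← sum_sub_distrib]
      exact sum_congr rfl fun l _ => by linear_combination ψ n l * c_rec i j l
    apply mul_left_cancel₀ (show (j + 1 : ℚ) ^ 2 ≠ 0 by positivity)
    rw [e, ← h, ← ih]
    linear_combination (-ψ n i) * ψ_N n j

lemma lin (n i j L : ℕ) (h : n < L) :
    (P n i : ℤ) * P n j = ∑ l ∈ range L, (P n l : ℤ) * c i j l := by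
  have := linQ n i j
  rw [← T_ext _ n L h] at this
  simp only [ψ_P] at this
  exact_mod_cast this

lemma gen (l L : ℕ) (h : l < L) (x : ℤ) :
    ∑ i ∈ range L, ∑ j ∈ range L, (c i j l : ℤ) * x ^ (i + j) = centralBinom l * (x ^ 2 + x) ^ l := by
  open Polynomial in
  have e : ∑ i ∈ range L, (X + C x) ^ i * C (l.choose i : ℤ) = (X + C (x + 1)) ^ l := by
    rw [show X + C (x + 1) = (X + C x) + 1 by simp; ring, add_pow (X + C x) 1]
    refine ((sum_subset (range_subset_range.2 h) fun m _ hm => ?_).symm.trans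
      (sum_congr rfl fun m _ => by simp))
    simp [Nat.choose_eq_zero_of_lt (show l < m by simpa using hm)]
  have e2 := congrArg (fun q => Polynomial.coeff (q * q) l * x ^ l) e
  rw [← pow_add, Polynomial.coeff_X_add_C_pow, sum_mul_sum] at e2
  simp only [Polynomial.finsetSum_coeff, sum_mul] at e2
  refine Eq.trans (sum_congr rfl fun i _ => sum_congr rfl fun j _ => ?_) (e2.trans ?_)
  · rw [mul_mul_mul_comm, ← pow_add, ← map_mul, Polynomial.coeff_mul_C, Polynomial.coeff_X_add_C_pow,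
      c]
    push_cast
    rcases le_or_gt l (i + j) with hl | hl
    · rw [← pow_sub_mul_pow x hl]; ring
    · simp [Nat.choose_eq_zero_of_lt hl]
  · rw [Nat.add_sub_cancel, centralBinom, two_mul, show x ^ 2 + x = (x + 1) * x by ring, mul_pow]
    ring

lemma D_sq (k L : ℕ) (h : k < L) (x : ℤ) :
    D k x ^ 2 = ∑ l ∈ range L, (P k l : ℤ) * (centralBinom l * (x ^ 2 + x) ^ l) := by
  have e : D k x = ∑ l ∈ range L, (P k l : ℤ) * x ^ l := by
    refine (sum_congr rfl fun l _ => by simp [P]).trans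
      (sum_subset (range_subset_range.2 h) fun m _ hm => ?_)
    simp [P, Nat.choose_eq_zero_of_lt (show k < m by simpa using hm)]
  symm
  rw [sum_congr rfl fun l hl => by rw [← gen l L (mem_range.1 hl), mul_sum], sum_comm, e, sq,
    sum_mul_sum]
  refine sum_congr rfl fun i _ => ?_
  simp only [mul_sum]
  rw [sum_comm]
  refine sum_congr rfl fun j _ => ?_
  rw [mul_mul_mul_comm, lin k i j L h, sum_mul]
  exact sum_congr rfl fun l _ => by ring

def χ (N l : ℕ) : ℤ := (N.choose l : ℤ) * ((N + 1 + l).choose l : ℤ)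

def U (N : ℕ) (y : ℤ) : ℤ := ∑ i ∈ range (N + 1), ∑ j ∈ range (N + 1),
  ∑ l ∈ range (N + 1), (centralBinom i * centralBinom j * c i j l : ℕ) * y ^ (i + j) * χ N l

lemma S_eq (N : ℕ) (hN : Even N) (x : ℤ) : S (N + 1) x = (N + 1) * U N (x ^ 2 + x) := by
  have t : ∀ l, ∑ k ∈ range (N + 1), (-1) ^ k * (2 * (k : ℤ) + 1) * P k l = (N + 1) * χ N l := by
    intro l
    have h := Pool.Agent.H.MP_cbe697_nt.tel_o 0 l (N + 1)
    have h2 := congrArg (Nat.cast : ℕ → ℤ) (Nat.add_one_mul_choose_eq N l)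
    unfold Pool.Agent.H.MP_cbe697_nt.o at h
    simp only [zero_add, pow_succ (-1 : ℤ) N, hN.neg_one_pow] at h
    push_cast at h h2
    refine (sum_congr rfl fun k _ => by rw [P]; push_cast; ring).trans (h.trans ?_)
    unfold χ
    linear_combination (-((N + 1 + l).choose l : ℤ)) * h2
  unfold S U
  rw [sum_congr rfl fun k hk => by
    rw [show D k x ^ 4 = D k x ^ 2 * D k x ^ 2 by ring, D_sq k (N + 1) (mem_range.1 hk), sum_mul_sum,
      mul_sum], sum_comm, mul_sum]
  refine sum_congr rfl fun i _ => ?_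
  simp only [mul_sum]
  rw [sum_comm]
  refine sum_congr rfl fun j _ => ?_
  rw [sum_congr rfl fun k hk => by
    rw [mul_mul_mul_comm (P k i : ℤ), lin k i j (N + 1) (mem_range.1 hk), sum_mul, mul_sum], sum_comm]
  refine sum_congr rfl fun l _ => ?_
  rw [mul_left_comm (N + 1 : ℤ), ← t, mul_sum]
  exact sum_congr rfl fun k _ => by push_cast; ring

lemma χ_mod (N l : ℕ) (hp : (N + 1).Prime) (hl : l < N + 1) :
    (χ N l : ZMod ((N + 1) ^ 2)) = (-1) ^ l := by
  induction l with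
  | zero => simp [χ]
  | succ l ih =>
    have e1 := congrArg (Nat.cast : ℕ → ZMod ((N + 1) ^ 2)) (Nat.choose_succ_right_eq N l)
    have e2 := congrArg (Nat.cast : ℕ → ZMod ((N + 1) ^ 2)) (Nat.add_one_mul_choose_eq (N + 1 + l) l)
    have e3 := ZMod.natCast_self ((N + 1) ^ 2)
    have u : IsUnit ((l + 1 : ℕ) : ZMod ((N + 1) ^ 2)) :=
      (ZMod.isUnit_iff_coprime _ _).2 (Nat.Coprime.pow_right _
        (Nat.coprime_of_lt_prime (by omega) hl hp).symm)
    have ih := ih (by omega)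
    rw [Nat.cast_mul, Nat.cast_mul, Nat.cast_sub (by omega)] at e1
    apply (u.mul u).mul_left_cancel
    unfold χ at ih ⊢
    rw [show N + 1 + (l + 1) = N + 1 + l + 1 from rfl]
    push_cast at e1 e2 e3 ih ⊢
    linear_combination ((l + 1) * ((N + 1 + l + 1).choose (l + 1) : ZMod ((N + 1) ^ 2))) * e1
      - ((N - l) * (N.choose l : ZMod ((N + 1) ^ 2))) * e2 + ((N - l) * (N + l + 2)) * ih
      + (-1) ^ l * e3

lemma alt (i j L : ℕ) (h : i + j < L) :
    ∑ l ∈ range L, (c i j l : ℤ) * (-1) ^ l = (-1) ^ (i + j) * (i + j).choose i := by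
  rw [← sum_subset (range_subset_range.2 (show i + (j + 1) ≤ L by omega)) fun m _ hm => by
    simp [c, Nat.choose_eq_zero_of_lt (show i + j < m by simp at hm; omega)], sum_range_add,
    sum_eq_zero fun l hl => by simp [c, Nat.choose_eq_zero_of_lt (mem_range.1 hl)], zero_add]
  have f := congrFun (fwdDiff_iter_choose 0 j) i
  rw [fwdDiff_iter_eq_sum_shift] at f
  simp only [Nat.choose_zero_right, add_zero, smul_eq_mul, mul_one, Nat.cast_one] at f
  refine Eq.trans ?_ ((congrArg (_ * ·) f).trans (mul_one _))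
  rw [mul_sum]
  refine sum_congr rfl fun s hs => ?_
  obtain ⟨r, rfl⟩ : ∃ r, j = s + r := ⟨j - s, by have := mem_range.1 hs; omega⟩
  have := Nat.choose_mul (n := i + (s + r)) (k := i + s) (s := i) (by omega)
  rw [Nat.add_sub_cancel_left, Nat.add_sub_cancel_left] at this
  rw [c, this, Nat.add_sub_cancel_left]
  push_cast
  have e : (-1 : ℤ) ^ r * (-1) ^ r = 1 := by rw [← mul_pow]; simp
  simp only [pow_add]
  linear_combination (-((i + (s + r)).choose i * (s + r).choose s * (i + s).choose (s + r) *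
    (-1) ^ i * (-1) ^ s : ℤ)) * e

def t (m i : ℕ) : ℚ := m ! * iv i * iv ((m : ℤ) - i) * cz i * cz ((m : ℤ) - i)

def H1 (m j : ℕ) : ℚ := (m + 1)! * iv ((j : ℤ) - 1) * iv ((m : ℤ) + 2 - j) * cz j *
  (2 * K ((m : ℤ) + 1 - j)) * (j * (-2 + 2 * j - 5 * m + 2 * m * j - 2 * m ^ 2))

lemma wz1 (m j : ℕ) : (m + 2) ^ 2 * t (m + 2) j - (12 * (m + 1) ^ 2 + 12 * (m + 1) + 4) * t (m + 1) j
    + 32 * (m + 1) ^ 2 * t m j = H1 m (j + 1) - H1 m j := by
  unfold t H1 K
  have a1 := iv_succ ((j : ℤ) - 1)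
  have a3 := iv_succ ((m : ℤ) + 1 - j)
  have a4 := iv_succ ((m : ℤ) - j)
  have c0 := cz_succ (j : ℤ)
  have c1 := cz_succ ((m : ℤ) + 1 - j)
  have c2 := cz_succ ((m : ℤ) - j)
  have o0 := odd_ne (j : ℤ)
  have o1 := odd_ne ((m : ℤ) + 1 - j)
  have o2 := odd_ne ((m : ℤ) - j)
  rw [show (j : ℤ) - 1 + 1 = j by ring] at a1
  rw [show (m : ℤ) + 1 - j + 1 = m + 2 - j by ring] at a3 c1
  rw [show (m : ℤ) - j + 1 = m + 1 - j by ring] at a4 c2
  have c3 : ((j : ℚ) + 1) * cz (j + 1) = 2 * (2 * j + 1) * cz j := by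
    rw [c0]; push_cast at o0 ⊢; field_simp
  push_cast
  rw [show (m : ℤ) + 1 - j + 1 = m + 2 - j by ring,
    show (j : ℤ) + 1 - 1 = j by ring, show (m : ℤ) + 2 - (j + 1) = m + 1 - j by ring,
    show (m : ℤ) + 1 - (j + 1) + 1 = m + 1 - j by ring, a1, a4, a3, c2, c1, c0,
    factorial_succ (m + 1), factorial_succ m]
  push_cast at o0 o1 o2 ⊢
  rw [show (m : ℚ) + 1 - (j + 1) = m - j by ring]
  field_simp
  ring

def u (m k : ℕ) : ℚ := (-4) ^ m * (-1 / 4) ^ k * cz k ^ 2 * k ! * iv ((m : ℤ) - k) * iv (2 * k - m)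

def H2 (m k : ℕ) : ℚ := (-4) ^ (m + 2) * (-1 / 4) ^ k * cz k ^ 2 * k ! * iv ((m : ℤ) + 2 - k) *
  iv (2 * k - m - 2) * (-(k * (m + 2)))

lemma wz2 (m j : ℕ) : (m + 2) ^ 2 * u (m + 2) j - (12 * (m + 1) ^ 2 + 12 * (m + 1) + 4) * u (m + 1) j
    + 32 * (m + 1) ^ 2 * u m j = H2 m (j + 1) - H2 m j := by
  unfold u H2
  have a1 := iv_succ (2 * (j : ℤ) - m - 2)
  have a2 := iv_succ (2 * (j : ℤ) - m - 1)
  have a3 := iv_succ ((m : ℤ) + 1 - j)
  have a4 := iv_succ ((m : ℤ) - j)
  have c0 := cz_succ (j : ℤ)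
  have o0 := odd_ne (j : ℤ)
  rw [show 2 * (j : ℤ) - m - 2 + 1 = 2 * j - m - 1 by ring] at a1
  rw [show 2 * (j : ℤ) - m - 1 + 1 = 2 * j - m by ring] at a2
  rw [show (m : ℤ) + 1 - j + 1 = m + 2 - j by ring] at a3
  rw [show (m : ℤ) - j + 1 = m + 1 - j by ring] at a4
  have c3 : cz (j + 1) = 2 * (2 * j + 1) * cz j / (j + 1) := by
    rw [c0]; push_cast at o0 ⊢; field_simp
  push_cast
  rw [show 2 * (j : ℤ) - (m + 2) = 2 * j - m - 2 by ring,
    show 2 * (j : ℤ) - (m + 1) = 2 * j - m - 1 by ring,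
    show (m : ℤ) + 2 - (j + 1) = m + 1 - j by ring,
    show 2 * ((j : ℤ) + 1) - m - 2 = 2 * j - m by ring, a1, a2, a4, a3, c3, factorial_succ j]
  push_cast
  field_simp
  ring

lemma sum_ext (f : ℕ → ℚ) (m L : ℕ) (hL : m + 1 ≤ L) (h : ∀ k, m < k → f k = 0) :
    ∑ j ∈ range L, f j = ∑ j ∈ range (m + 1), f j :=
  (sum_subset (range_subset_range.2 hL) fun k _ hk => h k (by simpa using hk)).symm

lemma tu (m : ℕ) : ∑ j ∈ range (m + 1), t m j = ∑ j ∈ range (m + 1), u m j := by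
  induction m using Nat.twoStepInduction with
  | zero => simp [t, u, iv, cz]
  | one => simp [t, u, iv, cz, sum_range_succ, centralBinom]; norm_num
  | more m ih0 ih1 =>
    have zt : ∀ m k, m < k → t m k = 0 := fun m k h => by
      rw [t, iv_neg (x := (m : ℤ) - k) (by omega)]; simp
    have zu : ∀ m k, m < k → u m k = 0 := fun m k h => by
      rw [u, iv_neg (x := (m : ℤ) - k) (by omega)]; simp
    have h1 := sum_congr (rfl : range (m + 3) = range (m + 3)) fun j _ => wz1 m j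
    have h2 := sum_congr (rfl : range (m + 3) = range (m + 3)) fun j _ => wz2 m j
    rw [sum_range_sub, sum_add_distrib, sum_sub_distrib, ← mul_sum, ← mul_sum, ← mul_sum] at h1 h2
    rw [sum_ext _ (m + 1) _ (by omega) (zt _), sum_ext (t m) m _ (by omega) (zt _), H1, H1,
      iv_neg (x := ((0 : ℕ) : ℤ) - 1) (by simp),
      iv_neg (x := (m : ℤ) + 2 - ((m + 3 : ℕ) : ℤ)) (by push_cast; omega)] at h1
    rw [sum_ext _ (m + 1) _ (by omega) (zu _), sum_ext (u m) m _ (by omega) (zu _), H2, H2,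
      iv_neg (x := (m : ℤ) + 2 - ((m + 3 : ℕ) : ℤ)) (by push_cast; omega)] at h2
    rw [ih0, ih1] at h1
    apply mul_left_cancel₀ (show (m + 2 : ℚ) ^ 2 ≠ 0 by positivity)
    simp only [mul_zero, zero_mul, Nat.cast_zero, neg_zero, sub_zero] at h1 h2
    linear_combination h1 - h2

lemma landen (m : ℕ) : ∑ i ∈ range (m + 1),
      (-1 : ℤ) ^ m * (m.choose i * centralBinom i * centralBinom (m - i) : ℕ) =
    ∑ k ∈ range (m + 1), (-1) ^ k * (centralBinom k : ℤ) ^ 2 * (4 ^ (m - k) * k.choose (m - k)) := by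
  apply Int.cast_injective (α := ℚ)
  have h := congrArg ((-1 : ℚ) ^ m * ·) (tu m)
  simp only [mul_sum] at h
  push_cast
  refine (sum_congr rfl fun i hi => ?_).trans (h.trans (sum_congr rfl fun k hk => ?_))
  · obtain ⟨r, rfl⟩ : ∃ r, m = i + r := ⟨m - i, by have := mem_range.1 hi; omega⟩
    rw [t, choose_iv, Nat.add_sub_cancel_left, ← cz_nat, ← cz_nat]
    push_cast
    rw [add_sub_cancel_left]
  · obtain ⟨r, rfl⟩ : ∃ r, m = k + r := ⟨m - k, by have := mem_range.1 hk; omega⟩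
    rw [u, choose_iv, Nat.add_sub_cancel_left, ← cz_nat]
    push_cast
    rw [add_sub_cancel_left, show 2 * (k : ℤ) - (k + r) = k - r by ring, ← mul_assoc, ← mul_assoc,
      ← mul_assoc, ← mul_assoc, ← mul_assoc, ← mul_pow, pow_add, div_pow]
    norm_num
    field_simp

theorem result (x : ℤ) (p : ℕ) (hp : p.Prime) (hodd : Odd p) :
    S p x ≡ p * T p x [ZMOD (p : ℤ) ^ 3] := by
  obtain ⟨h, rfl⟩ := hodd
  rw [S_eq (2 * h) (even_two_mul h), Int.modEq_iff_dvd, pow_succ' _ 2]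
  push_cast
  rw [← mul_sub]
  refine mul_dvd_mul_left _ ?_
  have cb : ∀ i, h < i → i < 2 * h + 1 → 2 * h + 1 ∣ centralBinom i := fun i h1 h2 =>
    hp.dvd_choose h2 (by omega) (by omega)
  have z : ∀ a b : ℕ, 2 * h + 1 ∣ a → 2 * h + 1 ∣ b → ((a * b : ℕ) : ZMod ((2 * h + 1) ^ 2)) = 0 :=
    fun a b ha hb => (ZMod.natCast_eq_zero_iff _ _).2 (by rw [sq]; exact mul_dvd_mul ha hb)
  have key : ((U (2 * h) (x ^ 2 + x) : ℤ) : ZMod ((2 * h + 1) ^ 2)) = (T (2 * h + 1) x : ℤ) := by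
    generalize hy : x ^ 2 + x = y
    have e1 : ((U (2 * h) y : ℤ) : ZMod ((2 * h + 1) ^ 2)) =
        (∑ i ∈ range (2 * h + 1), ∑ j ∈ range (2 * h + 1 - i), y ^ (i + j) *
          ((-1 : ℤ) ^ (i + j) * ((i + j).choose i * centralBinom i * centralBinom j : ℕ)) : ℤ) := by
      unfold U
      simp only [Int.cast_sum]
      refine sum_congr rfl fun i hi => ?_
      have hi := mem_range.1 hi
      rw [← sum_subset (range_subset_range.2 (show 2 * h + 1 - i ≤ 2 * h + 1 by omega))]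
      · refine sum_congr rfl fun j hj => ?_
        have := congrArg (Int.cast : ℤ → ZMod ((2 * h + 1) ^ 2))
          (alt i j (2 * h + 1) (by have := mem_range.1 hj; omega))
        rw [sum_congr rfl fun l hl => by rw [Int.cast_mul, χ_mod _ _ hp (mem_range.1 hl)]]
        push_cast at this ⊢
        rw [show ∀ a b c d e : ZMod ((2 * h + 1) ^ 2), a * (b * (c * d * e)) = d * e * a * (b * c)
          from fun _ _ _ _ _ => by ring, ← this, mul_sum]
        exact sum_congr rfl fun l _ => by ring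
      · intro j hj hj2
        have hj := mem_range.1 hj
        rw [mem_range] at hj2
        refine sum_eq_zero fun l hl => ?_
        have hl := mem_range.1 hl
        rw [Int.cast_mul, Int.cast_mul, Int.cast_natCast, z, zero_mul, zero_mul]
        · rcases lt_or_ge h i with h1 | h1
          · exact (cb i h1 hi).mul_right _
          · exact (cb j (by omega) hj).mul_left _
        · rcases lt_or_ge l i with h1 | h1
          · simp [c, Nat.choose_eq_zero_of_lt h1]
          · exact ((hp.dvd_choose hl (by omega) (by omega)).mul_right _).mul_right _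
    rw [e1, ← sum_range_diag_flip, sum_congr rfl fun m _ => by
      rw [sum_congr rfl fun i hi => by
        rw [Nat.add_sub_cancel' (Nat.lt_succ_iff.1 (mem_range.1 hi))], ← mul_sum, landen, mul_sum,
        sum_congr rfl fun i hi => by
          rw [show y ^ m = y ^ (i + (m - i)) by
            rw [Nat.add_sub_cancel' (Nat.lt_succ_iff.1 (mem_range.1 hi))]]],
      sum_range_diag_flip _ fun k s => y ^ (k + s) * ((-1) ^ k * (centralBinom k : ℤ) ^ 2 *
        (4 ^ s * k.choose s)), T, show (2 * h + 1 - 1) / 2 = h by omega]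
    simp only [Int.cast_sum]
    rw [← sum_subset (range_subset_range.2 (show h + 1 ≤ 2 * h + 1 by omega))]
    · refine sum_congr rfl fun k hk => ?_
      have hk := mem_range.1 hk
      rw [← Int.cast_sum, pow_mul, hy, show (2 * x + 1) ^ 2 = 4 * y + 1 by rw [← hy]; ring, add_pow (4 * y) 1,
        mul_sum, ← sum_subset (range_subset_range.2 (show k + 1 ≤ 2 * h + 1 - k by omega))]
      · congr 1
        exact sum_congr rfl fun s _ => by rw [centralBinom, mul_pow]; ring
      · intro s _ hs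
        simp [Nat.choose_eq_zero_of_lt (show k < s by simpa using hs)]
    · intro k hk hk2
      have := z _ _ (cb k (by simpa using hk2) (mem_range.1 hk)) (cb k (by simpa using hk2)
        (mem_range.1 hk))
      push_cast at this ⊢
      simp [sq, this]
  have := (ZMod.intCast_eq_intCast_iff_dvd_sub _ _ _).1 key
  exact_mod_cast this

end Pool.Agent.Results.MP_c45f9b_nt.Yes
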